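import Mathlib
import Pool.Agent.W751.RR.Stm

/-!
# Project RR: the polynomial is large where the potential is positive, off small discs
-/

set_option autoImplicit false

open Polynomial Filter Topology MeasureTheory

namespace Pool.Agent.W762.RR

open Pool.Agent.W751.CD Pool.Agent.W751.RR

theorem m1_prob {ρ : ℝ} (hρ : 0 < ρ) : IsProbabilityMeasure (m1 ρ) := by
  constructor
  have h0 : volume (Metric.closedBall (0 : ℂ) ρ) ≠ 0 := (Metric.measure_closedBall_pos _ _ hρ).ne'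
  have h1 : volume (Metric.closedBall (0 : ℂ) ρ) ≠ ⊤ := measure_closedBall_lt_top.ne
  unfold m1
  rw [Measure.smul_apply, Measure.restrict_apply_univ, smul_eq_mul, ENNReal.inv_mul_cancel h0 h1]

theorem m1_single (ρ : ℝ) (w : ℂ) : m1 ρ {w} = 0 := by
  unfold m1
  rw [Measure.smul_apply, Measure.restrict_apply (measurableSet_singleton w)]
  have : volume ({w} ∩ Metric.closedBall (0 : ℂ) ρ) = 0 :=
    measure_mono_null Set.inter_subset_left (measure_singleton w)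
  rw [this, smul_zero]

theorem m1_compl (ρ : ℝ) : m1 ρ (Metric.closedBall (0 : ℂ) ρ)ᶜ = 0 := by
  unfold m1
  rw [Measure.smul_apply, Measure.restrict_apply Metric.isClosed_closedBall.measurableSet.compl,
    Set.compl_inter_self, measure_empty, smul_zero]

theorem eval_P {N : ℕ} (z : Fin N → ℂ) (w : ℂ) : ‖(P z).eval w‖ = ∏ i, ‖w - z i‖ := by
  unfold P
  rw [eval_prod, norm_prod]
  simp

theorem lint_prod {ρ : ℝ} (hρ : 0 < ρ) (N : ℕ) {f : ℂ → ENNReal} (hf : Measurable f) :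
    ∫⁻ z : Fin N → ℂ, ∏ i, f (z i) ∂(mN ρ N) = (∫⁻ z, f z ∂(m1 ρ)) ^ N := by
  have := m1_prob hρ
  have hind : ProbabilityTheory.iIndepFun (fun (i : Fin N) (z : Fin N → ℂ) => f (z i))
      (mN ρ N) :=
    ProbabilityTheory.iIndepFun_pi (μ := fun _ : Fin N => m1 ρ) (X := fun _ => f)
      fun _ => hf.aemeasurable
  have h := ProbabilityTheory.lintegral_prod_eq_prod_lintegral_of_indepFun Finset.univ _ hind
    (fun i => hf.comp (measurable_pi_apply i))
  rw [h]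
  have h2 : ∀ i : Fin N, ∫⁻ z : Fin N → ℂ, f (z i) ∂(mN ρ N) = ∫⁻ z, f z ∂(m1 ρ) := by
    intro i
    exact (measurePreserving_eval (fun _ : Fin N => m1 ρ) i).lintegral_comp hf
  simp only [h2, Finset.prod_const, Finset.card_univ, Fintype.card_fin]

theorem markov {ρ : ℝ} (hρ : 0 < ρ) (N : ℕ) {q T E : ℝ} (hq : 0 ≤ q) (hT : 1 ≤ T) (hE : 0 ≤ E)
    (w : ℂ) (hint : ∫⁻ z, ENNReal.ofReal (‖w - z‖ ^ (-q)) ∂(m1 ρ) ≤ ENNReal.ofReal E) :
    mN ρ N {z | ∏ i, ‖w - z i‖ ≤ T} ≤ ENNReal.ofReal (T ^ q * E ^ N) := by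
  have := m1_prob hρ
  have hm : Measurable fun z : ℂ => ENNReal.ofReal (‖w - z‖ ^ (-q)) := by
    apply Measurable.ennreal_ofReal
    exact ((measurable_const.sub measurable_id).norm).pow_const _
  have hnull : mN ρ N (⋃ i : Fin N, {z | z i = w}) = 0 := by
    rw [measure_iUnion_null_iff]
    intro i
    exact Measure.pi_eval_preimage_null (fun _ : Fin N => m1 ρ) (m1_single ρ w)
  have hsub : {z : Fin N → ℂ | ∏ i, ‖w - z i‖ ≤ T} ⊆ (⋃ i : Fin N, {z | z i = w}) ∪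
      {z | (∀ i, z i ≠ w) ∧ ∏ i, ‖w - z i‖ ≤ T} := by
    intro z hz
    by_cases h : ∃ i, z i = w
    · exact Or.inl (Set.mem_iUnion.2 h)
    · push Not at h
      exact Or.inr ⟨h, hz⟩
  have hmain : mN ρ N {z | (∀ i, z i ≠ w) ∧ ∏ i, ‖w - z i‖ ≤ T} ≤
      ∫⁻ z, ENNReal.ofReal (T ^ q) * ∏ i, ENNReal.ofReal (‖w - z i‖ ^ (-q)) ∂(mN ρ N) := by
    apply meas_le_lintegral₀
    · apply Measurable.aemeasurable
      exact measurable_const.mul (Finset.measurable_prod _ fun i _ =>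
        hm.comp (measurable_pi_apply i))
    · rintro z ⟨hz, hzT⟩
      have hpos : ∀ i, 0 < ‖w - z i‖ := fun i => norm_pos_iff.2 (sub_ne_zero.2 (hz i).symm)
      have hprod : 0 < ∏ i, ‖w - z i‖ := Finset.prod_pos fun i _ => hpos i
      rw [← ENNReal.ofReal_prod_of_nonneg fun i _ => Real.rpow_nonneg (hpos i).le _,
        ← ENNReal.ofReal_mul (Real.rpow_nonneg (by linarith) _),
        Real.finsetProd_rpow _ _ (fun i _ => (hpos i).le)]
      rw [← ENNReal.ofReal_one]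
      apply ENNReal.ofReal_le_ofReal
      have h1 : T ^ (-q) ≤ (∏ i, ‖w - z i‖) ^ (-q) :=
        Real.rpow_le_rpow_of_nonpos hprod hzT (by linarith)
      have h2 : T ^ q * T ^ (-q) = 1 := by
        rw [← Real.rpow_add (by linarith), add_neg_cancel, Real.rpow_zero]
      calc (1 : ℝ) = T ^ q * T ^ (-q) := h2.symm
        _ ≤ _ := mul_le_mul_of_nonneg_left h1 (Real.rpow_nonneg (by linarith) _)
  calc mN ρ N {z | ∏ i, ‖w - z i‖ ≤ T}
      ≤ mN ρ N (⋃ i : Fin N, {z | z i = w}) +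
        mN ρ N {z | (∀ i, z i ≠ w) ∧ ∏ i, ‖w - z i‖ ≤ T} :=
        (measure_mono hsub).trans (measure_union_le _ _)
    _ ≤ ENNReal.ofReal (T ^ q) * (∫⁻ z, ENNReal.ofReal (‖w - z‖ ^ (-q)) ∂(m1 ρ)) ^ N := by
        rw [hnull, zero_add, ← lint_prod hρ N hm, ← lintegral_const_mul' _ _ ENNReal.ofReal_ne_top]
        exact hmain
    _ ≤ ENNReal.ofReal (T ^ q) * (ENNReal.ofReal E) ^ N := by
        gcongr
    _ = ENNReal.ofReal (T ^ q * E ^ N) := by
        rw [← ENNReal.ofReal_pow hE, ← ENNReal.ofReal_mul (Real.rpow_nonneg (by linarith) _)]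

/-- the net -/
def cell (ρ t s : ℝ) (p : ℤ × ℤ) : Set ℂ :=
  {w | ‖w‖ ≤ ρ + 3 ∧ t ≤ U ρ ‖w‖ ∧ ⌊w.re / s⌋ = p.1 ∧ ⌊w.im / s⌋ = p.2}

theorem cell_close {ρ t s : ℝ} (hs : 0 < s) {p : ℤ × ℤ} {w w' : ℂ} (hw : w ∈ cell ρ t s p)
    (hw' : w' ∈ cell ρ t s p) : ‖w' - w‖ ≤ 2 * s := by
  have h1 : |w'.re - w.re| ≤ s := by
    have e : ⌊w'.re / s⌋ = ⌊w.re / s⌋ := hw'.2.2.1.trans hw.2.2.1.symm
    have h := Int.abs_sub_lt_one_of_floor_eq_floor e
    rw [← sub_div, abs_div, abs_of_pos hs, div_lt_one hs] at h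
    exact h.le
  have h2 : |w'.im - w.im| ≤ s := by
    have e : ⌊w'.im / s⌋ = ⌊w.im / s⌋ := hw'.2.2.2.trans hw.2.2.2.symm
    have h := Int.abs_sub_lt_one_of_floor_eq_floor e
    rw [← sub_div, abs_div, abs_of_pos hs, div_lt_one hs] at h
    exact h.le
  have h3 := Complex.norm_le_abs_re_add_abs_im (w' - w)
  rw [Complex.sub_re, Complex.sub_im] at h3
  linarith

theorem floor_mem {B s : ℝ} (hs : 0 < s) {M : ℕ} (hM : B / s + 1 ≤ M) {x : ℝ} (hx : |x| ≤ B) :
    ⌊x / s⌋ ∈ Finset.Icc (-(M : ℤ)) M := by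
  have h1 : |x / s| ≤ B / s := by
    rw [abs_div, abs_of_pos hs]
    exact div_le_div_of_nonneg_right hx hs.le
  have h2 := abs_le.1 h1
  rw [Finset.mem_Icc]
  constructor
  · rw [Int.le_floor]
    push_cast
    linarith [h2.1]
  · have h3 : (⌊x / s⌋ : ℝ) ≤ M := (Int.floor_le _).trans (by linarith [h2.2])
    exact_mod_cast h3

theorem t_EV2 : S_EV2 := by
  classical
  intro hMOM ρ c hρ hc
  obtain ⟨C1, hC1, hM⟩ := hMOM ρ (ρ + 3) hρ
  refine ⟨(48 * C1 + 1) / c, by positivity, fun K hK => ?_⟩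
  have hK0 : 0 < K := lt_of_lt_of_le (by positivity) hK
  have hKc : 48 * C1 ≤ c ^ 2 * K ^ 2 := by
    have h1 : 48 * C1 + 1 ≤ c * K := by
      rw [div_le_iff₀ hc] at hK
      linarith
    nlinarith
  -- large `N`
  have hlim : Tendsto (fun N : ℕ => Real.log N / N) atTop (𝓝 0) := by
    have h1 : Tendsto (fun x : ℝ => Real.log x / x) atTop (𝓝 0) :=
      Real.isLittleO_log_id_atTop.tendsto_div_nhds_zero
    exact h1.comp tendsto_natCast_atTop_atTop
  have hev : ∀ᶠ N : ℕ in atTop, c * hN K N ≤ C1 ∧ ρ + 3 < 3 ^ N := by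
    have h1 : Tendsto (fun N : ℕ => c * hN K N) atTop (𝓝 0) := by
      have h2 : Tendsto (fun N : ℕ => Real.sqrt (Real.log N / N)) atTop (𝓝 0) := by
        have := (Real.continuous_sqrt.tendsto 0).comp hlim
        rwa [Real.sqrt_zero] at this
      have h3 := (h2.const_mul K).const_mul c
      rw [mul_zero, mul_zero] at h3
      exact h3
    have h4 : Tendsto (fun N : ℕ => (3 : ℝ) ^ N) atTop atTop :=
      tendsto_pow_atTop_atTop_of_one_lt (by norm_num)
    exact (h1.eventually (ge_mem_nhds hC1)).and (h4.eventually_gt_atTop _)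
  obtain ⟨N1, hN1⟩ := eventually_atTop.1 hev
  set T : ℝ := 2 * (ρ + 3) with hT
  have hT1 : 1 ≤ T := by rw [hT]; linarith
  refine ⟨max (N1 + 1) ((8 * (ρ + 3) + 5) ^ 2 * T), lt_max_of_lt_left (by positivity),
    fun N hN2 => ?_⟩
  have := m1_prob hρ
  have : IsProbabilityMeasure (mN ρ N) := by unfold mN; infer_instance
  have hNpos : (0 : ℝ) < N := by
    have : 0 < N := by omega
    exact_mod_cast this
  have hN1' : (1 : ℝ) ≤ N := by
    have : 1 ≤ N := by omega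
    exact_mod_cast this
  rcases lt_or_ge N N1 with hlt | hge
  · refine prob_le_one.trans ?_
    rw [← ENNReal.ofReal_one]
    apply ENNReal.ofReal_le_ofReal
    rw [le_div_iff₀ hNpos, one_mul]
    refine le_trans ?_ (le_max_left _ _)
    have : (N : ℝ) < N1 := by exact_mod_cast hlt
    linarith
  obtain ⟨hch, h3N⟩ := hN1 N hge
  set h : ℝ := hN K N with hh
  have hlog : 0 ≤ Real.log N := Real.log_nonneg hN1'
  have hh0 : 0 ≤ h := by
    rw [hh]; unfold hN; positivity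
  have hh2 : h ^ 2 * N = K ^ 2 * Real.log N := by
    rw [hh]
    unfold hN
    rw [mul_pow, Real.sq_sqrt (by positivity)]
    field_simp
  set q : ℝ := c * h / (2 * C1) with hq
  have hq0 : 0 ≤ q := by positivity
  have hq1 : q ≤ 1 / 2 := by
    rw [hq, div_le_iff₀ (by positivity)]
    linarith
  -- one point
  have hone : ∀ w : ℂ, ‖w‖ ≤ ρ + 3 → c * h ≤ U ρ ‖w‖ →
      mN ρ N {z | ∏ i, ‖w - z i‖ ≤ T} ≤ ENNReal.ofReal (T * (1 / (N : ℝ) ^ 12)) := by
    intro w hw hU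
    have h1 := (hM w hw q hq0 hq1).2
    have h2 := markov hρ N hq0 hT1 (Real.exp_pos _).le w h1
    refine h2.trans (ENNReal.ofReal_le_ofReal ?_)
    have h3 : T ^ q ≤ T := by
      calc T ^ q ≤ T ^ (1 : ℝ) := Real.rpow_le_rpow_of_exponent_le hT1 (by linarith)
        _ = T := Real.rpow_one T
    have h4 : Real.exp (-q * U ρ ‖w‖ + C1 * q ^ 2) ^ N ≤ 1 / (N : ℝ) ^ 12 := by
      rw [← Real.exp_nat_mul]
      have h5 : (1 : ℝ) / (N : ℝ) ^ 12 = Real.exp (-(12 * Real.log N)) := by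
        rw [Real.exp_neg, one_div]
        congr 1
        have : (12 : ℝ) * Real.log N = ((12 : ℕ) : ℝ) * Real.log N := by norm_num
        rw [this, Real.exp_nat_mul, Real.exp_log hNpos]
      rw [h5]
      apply Real.exp_le_exp.2
      have h6 : -q * U ρ ‖w‖ ≤ -q * (c * h) := by
        have := mul_le_mul_of_nonneg_left hU hq0
        linarith
      have h7 : -q * (c * h) + C1 * q ^ 2 = -(c ^ 2 * h ^ 2 / (4 * C1)) := by
        rw [hq]
        field_simp
        ring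
      have h8 : (N : ℝ) * (-q * U ρ ‖w‖ + C1 * q ^ 2) ≤
          N * (-(c ^ 2 * h ^ 2 / (4 * C1))) := by
        apply mul_le_mul_of_nonneg_left _ hNpos.le
        linarith
      refine h8.trans ?_
      have h9 : (N : ℝ) * (-(c ^ 2 * h ^ 2 / (4 * C1))) =
          -(c ^ 2 * (h ^ 2 * N) / (4 * C1)) := by ring
      rw [h9, hh2, neg_le_neg_iff, le_div_iff₀ (by positivity)]
      nlinarith
    calc T ^ q * Real.exp (-q * U ρ ‖w‖ + C1 * q ^ 2) ^ N ≤ T * (1 / (N : ℝ) ^ 12) :=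
          mul_le_mul h3 h4 (by positivity) (by linarith)
      _ = _ := rfl
  -- the net
  set s : ℝ := 1 / (4 * (N : ℝ) ^ 5) with hs
  have hs0 : 0 < s := by positivity
  set M : ℕ := ⌈(ρ + 3) / s⌉₊ + 1 with hMdef
  have hMs : (ρ + 3) / s + 1 ≤ M := by
    rw [hMdef]
    push_cast
    linarith [Nat.le_ceil ((ρ + 3) / s)]
  let I : Finset (ℤ × ℤ) := Finset.Icc (-(M : ℤ)) M ×ˢ Finset.Icc (-(M : ℤ)) M
  let F : ℤ × ℤ → Set (Fin N → ℂ) := fun p =>
    {z | ∃ hne : (cell ρ (c * h) s p).Nonempty, ∏ i, ‖hne.some - z i‖ ≤ T}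
  have hF : ∀ p, mN ρ N (F p) ≤ ENNReal.ofReal (T * (1 / (N : ℝ) ^ 12)) := by
    intro p
    by_cases hne : (cell ρ (c * h) s p).Nonempty
    · have h1 : F p ⊆ {z | ∏ i, ‖hne.some - z i‖ ≤ T} := by
        rintro z ⟨_, hz⟩
        exact hz
      have h2 := hne.some_mem
      exact (measure_mono h1).trans (hone _ h2.1 h2.2.1)
    · have h1 : F p = ∅ := by
        rw [Set.eq_empty_iff_forall_notMem]
        rintro z ⟨hz, _⟩
        exact hne hz
      rw [h1, measure_empty]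
      exact zero_le
  have hnull : mN ρ N {z | ¬ ∀ i, ‖z i‖ ≤ ρ} = 0 := by
    have h1 : {z : Fin N → ℂ | ¬ ∀ i, ‖z i‖ ≤ ρ} =
        ⋃ i : Fin N, {z | z i ∈ (Metric.closedBall (0 : ℂ) ρ)ᶜ} := by
      ext z
      simp
    rw [h1, measure_iUnion_null_iff]
    intro i
    exact Measure.pi_eval_preimage_null (fun _ : Fin N => m1 ρ) (m1_compl ρ)
  have hcover : {z : Fin N → ℂ | ∃ w : ℂ, c * h ≤ U ρ ‖w‖ ∧
      (∀ i, 1 / (N : ℝ) ^ 4 ≤ ‖w - z i‖) ∧ ‖(P z).eval w‖ ≤ ρ + 3} ⊆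
      {z | ¬ ∀ i, ‖z i‖ ≤ ρ} ∪ ⋃ p ∈ I, F p := by
    rintro z ⟨w, hwU, hwz, hwP⟩
    by_cases hz : ∀ i, ‖z i‖ ≤ ρ
    swap
    · exact Or.inl hz
    right
    rw [eval_P] at hwP
    have hwB : ‖w‖ ≤ ρ + 3 := by
      by_contra hcon
      push Not at hcon
      have h1 : ∀ i, 3 ≤ ‖w - z i‖ := by
        intro i
        have := norm_sub_norm_le w (z i)
        linarith [hz i]
      have h2 : (3 : ℝ) ^ N ≤ ∏ i, ‖w - z i‖ := by
        calc (3 : ℝ) ^ N = ∏ _i : Fin N, (3 : ℝ) := by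
              rw [Finset.prod_const, Finset.card_univ, Fintype.card_fin]
          _ ≤ _ := Finset.prod_le_prod (fun _ _ => by norm_num) fun i _ => h1 i
      linarith
    have hre : |w.re| ≤ ρ + 3 := (Complex.abs_re_le_norm w).trans hwB
    have him : |w.im| ≤ ρ + 3 := (Complex.abs_im_le_norm w).trans hwB
    have hwc : w ∈ cell ρ (c * h) s (⌊w.re / s⌋, ⌊w.im / s⌋) := ⟨hwB, hwU, rfl, rfl⟩
    rw [Set.mem_iUnion₂]
    refine ⟨(⌊w.re / s⌋, ⌊w.im / s⌋), Finset.mem_product.2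
      ⟨floor_mem hs0 hMs hre, floor_mem hs0 hMs him⟩, ⟨w, hwc⟩, ?_⟩
    set hne : (cell ρ (c * h) s (⌊w.re / s⌋, ⌊w.im / s⌋)).Nonempty := ⟨w, hwc⟩
    have hcl := cell_close hs0 hwc hne.some_mem
    have h1 : ∀ i, ‖hne.some - z i‖ ≤ (1 + 1 / (2 * (N : ℝ))) * ‖w - z i‖ := by
      intro i
      have h2 : ‖hne.some - z i‖ ≤ ‖hne.some - w‖ + ‖w - z i‖ := by
        have : hne.some - z i = (hne.some - w) + (w - z i) := by ring
        rw [this]
        exact norm_add_le _ _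
      have h3 : 2 * s ≤ 1 / (2 * (N : ℝ)) * ‖w - z i‖ := by
        calc 2 * s = 1 / (2 * (N : ℝ)) * (1 / (N : ℝ) ^ 4) := by
              rw [hs]
              field_simp
              norm_num
          _ ≤ _ := mul_le_mul_of_nonneg_left (hwz i) (by positivity)
      linarith
    have h4 : (1 + 1 / (2 * (N : ℝ))) ^ N ≤ 2 := by
      calc (1 + 1 / (2 * (N : ℝ))) ^ N ≤ (Real.exp (1 / (2 * (N : ℝ)))) ^ N := by
            apply pow_le_pow_left₀ (by positivity)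
            have := Real.add_one_le_exp (1 / (2 * (N : ℝ)))
            linarith
        _ = Real.exp (1 / 2) := by
            rw [← Real.exp_nat_mul]
            congr 1
            field_simp
        _ ≤ 2 := by
            have h5 : Real.exp (1 / 2) ^ 2 = Real.exp 1 := by
              rw [← Real.exp_nat_mul]
              norm_num
            have h6 := Real.exp_one_lt_d9
            have h7 := Real.exp_pos (1 / 2)
            nlinarith
    calc ∏ i, ‖hne.some - z i‖ ≤ ∏ i, (1 + 1 / (2 * (N : ℝ))) * ‖w - z i‖ :=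
          Finset.prod_le_prod (fun i _ => norm_nonneg _) fun i _ => h1 i
      _ = (1 + 1 / (2 * (N : ℝ))) ^ N * ∏ i, ‖w - z i‖ := by
          rw [Finset.prod_mul_distrib, Finset.prod_const, Finset.card_univ, Fintype.card_fin]
      _ ≤ 2 * (ρ + 3) := mul_le_mul h4 hwP (Finset.prod_nonneg fun i _ => norm_nonneg _)
          (by norm_num)
      _ = T := rfl
  have hcard : ((I.card : ℕ) : ℝ) ≤ ((8 * (ρ + 3) + 5) * (N : ℝ) ^ 5) ^ 2 := by
    have h1 : I.card = (2 * M + 1) ^ 2 := by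
      simp only [I, Finset.card_product, Int.card_Icc]
      have : ((M : ℤ) + 1 - -(M : ℤ)).toNat = 2 * M + 1 := by omega
      rw [this, sq]
    rw [h1]
    push_cast
    have h2 : (M : ℝ) ≤ 4 * (ρ + 3) * (N : ℝ) ^ 5 + 2 := by
      have h3 : (⌈(ρ + 3) / s⌉₊ : ℝ) ≤ (ρ + 3) / s + 1 :=
        (Nat.ceil_lt_add_one (by positivity)).le
      have h4 : (ρ + 3) / s = 4 * (ρ + 3) * (N : ℝ) ^ 5 := by
        rw [hs]
        field_simp
      rw [hMdef]
      push_cast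
      rw [h4] at h3
      rw [h4]
      linarith
    have h5 : (1 : ℝ) ≤ (N : ℝ) ^ 5 := one_le_pow₀ hN1'
    apply pow_le_pow_left₀ (by positivity)
    nlinarith
  calc mN ρ N {z : Fin N → ℂ | ∃ w : ℂ, c * h ≤ U ρ ‖w‖ ∧
      (∀ i, 1 / (N : ℝ) ^ 4 ≤ ‖w - z i‖) ∧ ‖(P z).eval w‖ ≤ ρ + 3}
      ≤ mN ρ N {z | ¬ ∀ i, ‖z i‖ ≤ ρ} + mN ρ N (⋃ p ∈ I, F p) :=
        (measure_mono hcover).trans (measure_union_le _ _)
    _ ≤ ∑ p ∈ I, mN ρ N (F p) := by
        rw [hnull, zero_add]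
        exact measure_biUnion_finset_le _ _
    _ ≤ ∑ _p ∈ I, ENNReal.ofReal (T * (1 / (N : ℝ) ^ 12)) := Finset.sum_le_sum fun p _ => hF p
    _ = ENNReal.ofReal ((I.card : ℕ) : ℝ) * ENNReal.ofReal (T * (1 / (N : ℝ) ^ 12)) := by
        rw [Finset.sum_const, nsmul_eq_mul, ENNReal.ofReal_natCast]
    _ = ENNReal.ofReal ((I.card : ℝ) * (T * (1 / (N : ℝ) ^ 12))) := by
        rw [← ENNReal.ofReal_mul (Nat.cast_nonneg _)]
    _ ≤ _ := by
        apply ENNReal.ofReal_le_ofReal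
        have h1 : (I.card : ℝ) * (T * (1 / (N : ℝ) ^ 12)) ≤
            ((8 * (ρ + 3) + 5) * (N : ℝ) ^ 5) ^ 2 * (T * (1 / (N : ℝ) ^ 12)) :=
          mul_le_mul_of_nonneg_right hcard (by positivity)
        have h2 : ((8 * (ρ + 3) + 5) * (N : ℝ) ^ 5) ^ 2 * (T * (1 / (N : ℝ) ^ 12)) =
            (8 * (ρ + 3) + 5) ^ 2 * T / (N : ℝ) ^ 2 := by
          field_simp
        have h3 : (8 * (ρ + 3) + 5) ^ 2 * T / (N : ℝ) ^ 2 ≤
            (8 * (ρ + 3) + 5) ^ 2 * T / N := by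
          apply div_le_div_of_nonneg_left (by positivity) hNpos
          nlinarith
        have h4 : (8 * (ρ + 3) + 5) ^ 2 * T / N ≤
            max ((N1 : ℝ) + 1) ((8 * (ρ + 3) + 5) ^ 2 * T) / N :=
          div_le_div_of_nonneg_right (le_max_right _ _) hNpos.le
        rw [h2] at h1
        linarith

end Pool.Agent.W762.RR
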